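import Mathlib
import Pool.Agent.H171R2.EPDefs
import Pool.Agent.H171R2.EPGraph

set_option autoImplicit false

namespace Pool.Agent.Results.MP_a9a483_co.NoTwoJoin

open SimpleGraph Pool.Agent.H171R2.EP

/-- There is a Berge graph on 17 vertices that is even-pair-free, such that neither it nor its
complement is the line graph of a bipartite graph, and which has no 2-join. Moreover its complement
is even-pair-free as well and has no 2-join either, and neither of the two graphs is bipartite. -/
theorem result :
    ∃ G : SimpleGraph (Fin 17),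
      IsBerge G ∧ EvenPairFree G ∧
      ¬ IsLineGraphOfBipartite G ∧ ¬ IsLineGraphOfBipartite Gᶜ ∧ ¬ HasTwoJoin G ∧
      EvenPairFree Gᶜ ∧ ¬ HasTwoJoin Gᶜ ∧ ¬ G.Colorable 2 ∧ ¬ Gᶜ.Colorable 2 :=
  ⟨G, G_berge, G_epf, G_not_line, Gc_not_line, joinCheck_sound adj G G_adj joinG, Gc_epf,
    joinCheck_sound coadj Gᶜ Gc_adj joinGc, G_not_bip, Gc_not_bip⟩

end Pool.Agent.Results.MP_a9a483_co.NoTwoJoin
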